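import Mathlib

set_option autoImplicit false

namespace Pool.Agent.Results.MP_efc620_co.GemCounter
open Finset Polynomial

/-- chordal: no induced cycle of length at least 4 -/
def Chordal {n : ℕ} (G : SimpleGraph (Fin n)) : Prop :=
  ∀ k, 4 ≤ k → IsEmpty (SimpleGraph.cycleGraph k ↪g G)

/-- the number of cycles of a permutation, fixed points included -/
def ncyc {n : ℕ} (σ : Equiv.Perm (Fin n)) : ℕ :=
  (univ.image fun x => univ.filter fun y => σ.SameCycle x y).card

open scoped Classical in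
/-- the graphical cycle polynomial -/
noncomputable def cyclePoly {n : ℕ} (G : SimpleGraph (Fin n)) : ℂ[X] :=
  ∑ σ ∈ univ.filter fun σ : Equiv.Perm (Fin n) => ∀ v, σ v ≠ v → G.Adj v (σ v), X ^ ncyc σ

def adj (u v : Fin 5) : Bool :=
  (u.1, v.1) ∈ [(0, 1), (1, 2), (2, 3), (0, 4), (1, 4), (2, 4), (3, 4)]

/-- the gem: the path `0, 1, 2, 3` and a vertex adjacent to all of it -/
def gem : SimpleGraph (Fin 5) where
  Adj u v := adj u v = true ∨ adj v u = true
  symm := ⟨fun _ _ h => h.symm⟩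
  loopless := ⟨by decide⟩

instance : DecidableRel gem.Adj := fun u v =>
  inferInstanceAs (Decidable (adj u v = true ∨ adj v u = true))

theorem chordal : Chordal gem := by
  intro k hk
  constructor
  intro f
  have h6 : k ≤ 5 := by simpa using Fintype.card_le_of_embedding f.toEmbedding
  have hn : ∀ i j, i ≠ j → f i ≠ f j := fun i j h e => h (f.injective e)
  interval_cases k
  · have : ∀ a b, gem.Adj a b → ∀ c, gem.Adj b c → a ≠ c → ¬ gem.Adj a c → ∀ d, gem.Adj c d →
        b ≠ d → ¬ gem.Adj b d → ¬ gem.Adj d a := by decide +kernel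
    refine this (f 0) (f 1) ?_ (f 2) ?_ (hn _ _ ?_) ?_ (f 3) ?_ (hn _ _ ?_) ?_ ?_ <;>
      (try rw [f.map_adj_iff]) <;> decide
  · have : ∀ a b, gem.Adj a b → ∀ c, gem.Adj b c → a ≠ c → ¬ gem.Adj a c → ∀ d, gem.Adj c d →
        b ≠ d → ¬ gem.Adj b d → ¬ gem.Adj a d → ∀ e, gem.Adj d e → ¬ gem.Adj c e → c ≠ e →
        ¬ gem.Adj e a := by decide +kernel
    refine this (f 0) (f 1) ?_ (f 2) ?_ (hn _ _ ?_) ?_ (f 3) ?_ (hn _ _ ?_) ?_ ?_ (f 4) ?_ ?_
      (hn _ _ ?_) ?_ <;> (try rw [f.map_adj_iff]) <;> decide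

theorem mset : (univ.filter fun σ : Equiv.Perm (Fin 5) => ∀ v, σ v ≠ v → gem.Adj v (σ v)).val.map
    ncyc = Multiset.replicate 2 1 + Multiset.replicate 8 2 + Multiset.replicate 13 3 +
      Multiset.replicate 7 4 + Multiset.replicate 1 5 := by decide +kernel

theorem poly : cyclePoly gem = X * (X ^ 4 + 7 * X ^ 3 + 13 * X ^ 2 + 8 * X + 2) := by
  have := congrArg (fun m : Multiset ℕ => (m.map fun k => (X : ℂ[X]) ^ k).sum) mset
  simp only [Multiset.map_map, Multiset.map_add, Multiset.sum_add, Multiset.map_replicate,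
    Multiset.sum_replicate, nsmul_eq_mul] at this
  rw [cyclePoly, Finset.sum]
  convert this.trans _
  · rfl
  · push_cast
    ring

theorem result : ∃ (n : ℕ) (G : SimpleGraph (Fin n)), G.Connected ∧ Chordal G ∧
    cyclePoly G ≠ 0 ∧ ∃ z : ℂ, (cyclePoly G).IsRoot z ∧ z.im ≠ 0 := by
  set q : ℂ[X] := X ^ 4 + 7 * X ^ 3 + 13 * X ^ 2 + 8 * X + 2 with hq
  have hm : q.Monic := by rw [hq]; monicity!
  have hd : q.natDegree = 4 := by rw [hq]; compute_degree!
  refine ⟨5, gem, by decide, chordal, by rw [poly]; exact mul_ne_zero X_ne_zero hm.ne_zero, ?_⟩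
  by_contra hc
  push Not at hc
  have hr : ∀ z ∈ q.roots, z = (z.re : ℂ) := fun z hz =>
    Complex.ext rfl (hc z (by rw [poly]; exact root_mul.2 (Or.inr (isRoot_of_mem_roots hz))))
  have h1 := (IsAlgClosed.splits q).eq_prod_roots_of_monic hm
  obtain ⟨a, b, c, d, h⟩ := Multiset.card_eq_four.1
    ((IsAlgClosed.splits q).natDegree_eq_card_roots.symm.trans hd)
  rw [h] at h1 hr
  have h2 : ∀ t : ℝ, t ^ 4 + 7 * t ^ 3 + 13 * t ^ 2 + 8 * t + 2 =
      (t - a.re) * (t - b.re) * (t - c.re) * (t - d.re) := by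
    intro t
    have := congrArg (eval (t : ℂ)) h1
    rw [hr a (by simp), hr b (by simp), hr c (by simp), hr d (by simp)] at this
    simp [hq, ← mul_assoc] at this
    apply Complex.ofReal_injective
    push_cast
    exact this
  generalize a.re = a, b.re = b, c.re = c, d.re = d at h2
  have e0 := h2 0
  have e1 := h2 1
  have e2 := h2 (-1)
  have e3 := h2 2
  have f4 : a * b * c * d = 2 := by linarith
  have f3 : b * c * d + a * c * d + a * b * d + a * b * c = -8 := by
    linear_combination (1 / 3) * e2 * (-1) + (-1 / 2) * e0 + e1 + (-1 / 6) * e3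
  have f2 : a * b + a * c + a * d + b * c + b * d + c * d = 13 := by
    linear_combination (-1 / 2) * e2 + e0 + (-1 / 2) * e1
  have f5 : (b * c * d) ^ 2 + (a * c * d) ^ 2 + (a * b * d) ^ 2 + (a * b * c) ^ 2 = 12 := by
    linear_combination (b * c * d + a * c * d + a * b * d + a * b * c - 8) * f3 -
      2 * (a * b + a * c + a * d + b * c + b * d + c * d) * f4 - 4 * f2
  generalize b * c * d = A, a * c * d = B, a * b * d = C, a * b * c = D at f3 f5
  nlinarith [sq_nonneg (A + 2), sq_nonneg (B + 2), sq_nonneg (C + 2), sq_nonneg (D + 2)]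

end Pool.Agent.Results.MP_efc620_co.GemCounter
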